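import Pool.Agent.H311.SR.Defs

/-!
# G2: Bruhat decomposition, by the marriage theorem
-/

set_option autoImplicit false

open Finset

namespace Pool.Agent.H311.SR

/-- the leading points of a subspace without leading points in `A` -/
theorem bru_disj {K : Type} [Field K] {X : Type} [Fintype X] (a : X → ℤ)
    (A : Finset X) (U : Submodule K (X → K))
    (hU : ∀ x ∈ A, ¬ ∃ u ∈ U, u x = 1 ∧ ∀ x', a x < a x' → u x' = 0) :
    Disjoint U (LinearMap.ker (LinearMap.funLeft K K (Subtype.val : {x // x ∉ A} → X))) := by
  classical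
  rw [Submodule.disjoint_def]
  intro u hu hk
  by_contra hne
  have hex : ∃ x, u x ≠ 0 := by
    by_contra hcon
    push Not at hcon
    exact hne (funext hcon)
  obtain ⟨x0, hx0⟩ := hex
  obtain ⟨x, hx, hmax⟩ := Finset.exists_max_image (univ.filter (fun x => u x ≠ 0)) a
    ⟨x0, Finset.mem_filter.2 ⟨mem_univ _, hx0⟩⟩
  have hux : u x ≠ 0 := (Finset.mem_filter.1 hx).2
  have hxA : x ∈ A := by
    by_contra hxA
    have h1 := LinearMap.mem_ker.1 hk
    have h2 := congrFun h1 ⟨x, hxA⟩
    exact hux h2
  refine hU x hxA ⟨(u x)⁻¹ • u, U.smul_mem _ hu, ?_, ?_⟩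
  · rw [Pi.smul_apply, smul_eq_mul, inv_mul_cancel₀ hux]
  · intro x' hx'
    rw [Pi.smul_apply, smul_eq_mul]
    have : u x' = 0 := by
      by_contra h
      have := hmax x' (Finset.mem_filter.2 ⟨mem_univ _, h⟩)
      omega
    rw [this, mul_zero]

theorem bru : S_bru := by
  intro K _ X _ _ a ha g hg w
  classical
  let P : X → X → Prop := fun x s => ∃ u ∈ Submodule.span K (g '' {t | w t ≤ w s}),
    u x = 1 ∧ ∀ x', a x < a x' → u x' = 0
  let T : X → Finset X := fun x => univ.filter (P x)
  have hall : ∀ A : Finset X, A.card ≤ (A.biUnion T).card := by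
    intro A
    rcases Finset.eq_empty_or_nonempty (univ \ A.biUnion T) with hD | hD
    · have h1 : A.biUnion T = univ := by
        rw [Finset.sdiff_eq_empty_iff_subset] at hD
        exact Finset.eq_univ_iff_forall.2 (fun x => hD (mem_univ x))
      rw [h1]
      exact Finset.card_le_univ A
    · obtain ⟨s0, hs0, hmax⟩ := Finset.exists_max_image (univ \ A.biUnion T) w hD
      have hdis : Disjoint (Submodule.span K (g '' {t | w t ≤ w s0}))
          (LinearMap.ker (LinearMap.funLeft K K (Subtype.val : {x // x ∉ A} → X))) := by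
        refine bru_disj a A _ (fun x hx hex => ?_)
        have h1 : s0 ∈ T x := Finset.mem_filter.2 ⟨mem_univ _, hex⟩
        exact (Finset.mem_sdiff.1 hs0).2 (Finset.mem_biUnion.2 ⟨x, hx, h1⟩)
      have hli : LinearIndependent K (fun s : {s // s ∈ univ \ A.biUnion T} => g s.1) :=
        hg.comp Subtype.val Subtype.val_injective
      have hsub : Submodule.span K
          (Set.range (fun s : {s // s ∈ univ \ A.biUnion T} => g s.1))
          ≤ Submodule.span K (g '' {t | w t ≤ w s0}) := by
        refine Submodule.span_mono ?_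
        rintro _ ⟨s, rfl⟩
        exact ⟨s.1, hmax s.1 s.2, rfl⟩
      have hli2 := hli.map (hdis.mono_left hsub)
      have hc := hli2.fintype_card_le_finrank
      rw [Module.finrank_pi, Fintype.card_coe] at hc
      have h3 : Fintype.card {x // x ∉ A} = Fintype.card X - A.card := by
        rw [Fintype.card_subtype_compl, Fintype.card_coe]
      rw [h3] at hc
      have h4 : (univ \ A.biUnion T).card = Fintype.card X - (A.biUnion T).card := by
        rw [Finset.card_sdiff_of_subset (subset_univ _), Finset.card_univ]
      rw [h4] at hc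
      have h5 : A.card ≤ Fintype.card X := Finset.card_le_univ A
      have h6 : (A.biUnion T).card ≤ Fintype.card X := Finset.card_le_univ _
      omega
  obtain ⟨f, hf, hT⟩ := (Finset.all_card_le_biUnion_card_iff_exists_injective T).1 hall
  refine ⟨Equiv.ofBijective f (Finite.injective_iff_bijective.1 hf), fun x => ?_⟩
  exact (Finset.mem_filter.1 (hT x)).2

end Pool.Agent.H311.SR
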