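import Pool.Agent.H311.SR.Defs

set_option autoImplicit false

open Finset

namespace Pool.Agent.H311.SR

/-- the vectors of the bad points are linearly independent -/
theorem ech_indep {K X V : Type} [Field K] [AddCommGroup V] [Module K V] (a : X → ℤ)
    (ha : Function.Injective a) (v : X → V) :
    LinearIndependent K
      (fun x : {x : X // v x ∉ Submodule.span K (v '' {x' | a x' < a x})} => v x.1) := by
  classical
  rw [linearIndependent_iff']
  intro s c hc
  by_contra hcon
  push Not at hcon
  obtain ⟨i₀, hi₀, hci₀⟩ := hcon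
  obtain ⟨i, hi, hmax⟩ := Finset.exists_max_image (s.filter fun i => c i ≠ 0) (fun i => a i.1)
    ⟨i₀, Finset.mem_filter.2 ⟨hi₀, hci₀⟩⟩
  obtain ⟨his, hci⟩ := Finset.mem_filter.1 hi
  apply i.2
  have h1 : c i • v i.1 = - ∑ j ∈ s.erase i, c j • v j.1 := by
    rw [← Finset.add_sum_erase s (fun j => c j • v j.1) his] at hc
    exact eq_neg_of_add_eq_zero_left hc
  have h2 : ∑ j ∈ s.erase i, c j • v j.1 ∈ Submodule.span K (v '' {x' | a x' < a i.1}) := by
    refine Submodule.sum_mem _ fun j hj => ?_
    rw [Finset.mem_erase] at hj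
    by_cases hcj : c j = 0
    · rw [hcj, zero_smul]
      exact zero_mem _
    · refine Submodule.smul_mem _ _ (Submodule.subset_span ⟨j.1, ?_, rfl⟩)
      have h3 : a j.1 ≤ a i.1 := hmax j (Finset.mem_filter.2 ⟨hj.2, hcj⟩)
      have h4 : a j.1 ≠ a i.1 := fun h => hj.1 (Subtype.ext (ha h))
      exact lt_of_le_of_ne h3 h4
  have h5 : v i.1 = (c i)⁻¹ • (c i • v i.1) := by
    rw [smul_smul, inv_mul_cancel₀ hci, one_smul]
  rw [h5, h1]
  exact Submodule.smul_mem _ _ (neg_mem h2)

theorem ech : S_ech := by
  classical
  intro K _ X _ _ a ha r g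
  have hli := ech_indep (K := K) a ha (fun x i => g i x : X → (Fin r → K))
  have hcard := hli.fintype_card_le_finrank
  rw [Module.finrank_fin_fun] at hcard
  refine ⟨Finset.univ.filter fun x => (fun i => g i x) ∈
    Submodule.span K ((fun x i => g i x : X → (Fin r → K)) '' {x' | a x' < a x}), ?_, ?_⟩
  · have h1 := Finset.card_filter_add_card_filter_not (s := (Finset.univ : Finset X))
      (p := fun x => (fun i => g i x) ∈
        Submodule.span K ((fun x i => g i x : X → (Fin r → K)) '' {x' | a x' < a x}))
    rw [Finset.card_univ] at h1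
    rw [Fintype.card_subtype] at hcard
    rw [← h1]
    exact Nat.add_le_add_left hcard _
  · intro x hx
    have hx' := (Finset.mem_filter.1 hx).2
    rw [Finsupp.mem_span_image_iff_linearCombination] at hx'
    obtain ⟨l, hl, hlx⟩ := hx'
    rw [Finsupp.mem_supported] at hl
    have hl0 : ∀ x', ¬ a x' < a x → l x' = 0 := by
      intro x' h
      by_contra hne
      exact h (hl (Finset.mem_coe.2 (Finsupp.mem_support_iff.2 hne)))
    refine ⟨fun x' => (if x' = x then 1 else 0) - l x', ?_, ?_, ?_⟩
    · show (if x = x then (1 : K) else 0) - l x = 1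
      rw [if_pos rfl, hl0 x (lt_irrefl _), sub_zero]
    · intro x' h
      show (if x' = x then (1 : K) else 0) - l x' = 0
      have h1 : x' ≠ x := by
        rintro rfl
        exact lt_irrefl _ h
      rw [if_neg h1, hl0 x' (not_lt.2 h.le), sub_zero]
    · intro i
      have h0 : Finsupp.linearCombination K (fun x i => g i x : X → (Fin r → K)) l =
          ∑ x', l x' • (fun i => g i x' : Fin r → K) := by
        rw [Finsupp.linearCombination_apply]
        exact Finsupp.sum_fintype _ _ (fun x => zero_smul K _)
      rw [h0] at hlx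
      have h1 := congrFun hlx i
      rw [Finset.sum_apply] at h1
      have h2 : ∑ x', l x' * g i x' = g i x := h1
      have h3 : ∑ x', ((if x' = x then (1 : K) else 0) - l x') * g i x' =
          (∑ x', (if x' = x then (1 : K) else 0) * g i x') - ∑ x', l x' * g i x' := by
        rw [← Finset.sum_sub_distrib]
        exact Finset.sum_congr rfl fun x' _ => sub_mul _ _ _
      have h4 : ∑ x', (if x' = x then (1 : K) else 0) * g i x' = g i x := by
        simp
      show ∑ x', ((if x' = x then (1 : K) else 0) - l x') * g i x' = 0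
      rw [h3, h4, h2, sub_self]

end Pool.Agent.H311.SR
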