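import Pool.Agent.H311.SR.Defs

/-!
# Slice rank: lower bound for tight tensors with nonzero diagonal, trivial upper bound

Proved by helper675 for helper311.
-/

set_option autoImplicit false

open Finset

namespace Pool.Agent.H311.SR

theorem low_slice {X K : Type} [Field K] [Fintype X] {r : ℕ} (g : Fin r → X → K)
    (h : Fin r → X → X → K) (u₁ u₂ u₃ : X → K) (hg : ∀ i, ∑ x, u₁ x * g i x = 0) :
    ∑ x, ∑ y, ∑ z, (∑ i, g i x * h i y z) * u₁ x * u₂ y * u₃ z = 0 := by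
  have e : ∀ x, ∑ y, ∑ z, (∑ i, g i x * h i y z) * u₁ x * u₂ y * u₃ z =
      ∑ i, (u₁ x * g i x) * ∑ y, ∑ z, h i y z * u₂ y * u₃ z := by
    intro x
    simp only [Finset.mul_sum]
    conv_rhs => rw [Finset.sum_comm]
    refine Finset.sum_congr rfl fun y _ => ?_
    conv_rhs => rw [Finset.sum_comm]
    refine Finset.sum_congr rfl fun z _ => ?_
    rw [Finset.sum_mul, Finset.sum_mul, Finset.sum_mul]
    refine Finset.sum_congr rfl fun i _ => ?_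
    ring
  rw [Finset.sum_congr rfl fun x _ => e x, Finset.sum_comm]
  refine Finset.sum_eq_zero fun i _ => ?_
  rw [← Finset.sum_mul, hg, zero_mul]

theorem low (h : S_ech) : S_low := by
  intro K _ X _ _ a b c ha hb hc f hf hs r hr
  obtain ⟨r₁, r₂, r₃, g₁, h₁, g₂, h₂, g₃, h₃, hr', hfe⟩ := hr
  by_contra hlt
  obtain ⟨S₁, c₁, d₁⟩ := h K X a ha r₁ g₁
  obtain ⟨S₂, c₂, d₂⟩ := h K X b hb r₂ g₂
  obtain ⟨S₃, c₃, d₃⟩ := h K X c hc r₃ g₃
  have hx : ∃ x, x ∈ S₁ ∧ x ∈ S₂ ∧ x ∈ S₃ := by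
    by_contra hno
    have hsub : (Finset.univ : Finset X) ⊆ (S₁ᶜ ∪ S₂ᶜ) ∪ S₃ᶜ := by
      intro x _
      rw [Finset.mem_union, Finset.mem_union, Finset.mem_compl, Finset.mem_compl,
        Finset.mem_compl]
      by_contra hcon
      push Not at hcon
      exact hno ⟨x, hcon.1.1, hcon.1.2, hcon.2⟩
    have e1 := Finset.card_le_card hsub
    have e2 := Finset.card_union_le (S₁ᶜ ∪ S₂ᶜ) S₃ᶜ
    have e3 := Finset.card_union_le S₁ᶜ S₂ᶜ
    rw [Finset.card_compl] at e2 e3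
    rw [Finset.card_compl] at e3
    rw [Finset.card_univ] at e1
    omega
  obtain ⟨x, m₁, m₂, m₃⟩ := hx
  obtain ⟨u₁, a₁, b₁, z₁⟩ := d₁ x m₁
  obtain ⟨u₂, a₂, b₂, z₂⟩ := d₂ x m₂
  obtain ⟨u₃, a₃, b₃, z₃⟩ := d₃ x m₃
  have h0 := hs x x x (hf x)
  have key : ∀ x₁ x₂ x₃, (x₁ ≠ x ∨ x₂ ≠ x ∨ x₃ ≠ x) → f x₁ x₂ x₃ * u₁ x₁ * u₂ x₂ * u₃ x₃ = 0 := by
    intro x₁ x₂ x₃ hne
    by_contra hnz
    have n3 : u₃ x₃ ≠ 0 := right_ne_zero_of_mul hnz
    have n12 := left_ne_zero_of_mul hnz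
    have n2 : u₂ x₂ ≠ 0 := right_ne_zero_of_mul n12
    have n11 := left_ne_zero_of_mul n12
    have n1 : u₁ x₁ ≠ 0 := right_ne_zero_of_mul n11
    have n0 : f x₁ x₂ x₃ ≠ 0 := left_ne_zero_of_mul n11
    have l1 : a x₁ ≤ a x := not_lt.1 fun hl => n1 (b₁ x₁ hl)
    have l2 : b x₂ ≤ b x := not_lt.1 fun hl => n2 (b₂ x₂ hl)
    have l3 : c x₃ ≤ c x := not_lt.1 fun hl => n3 (b₃ x₃ hl)
    have h1 := hs x₁ x₂ x₃ n0
    rcases hne with hne | hne | hne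
    · exact hne (ha (by omega))
    · exact hne (hb (by omega))
    · exact hne (hc (by omega))
  have hsum : ∑ x₁, ∑ x₂, ∑ x₃, f x₁ x₂ x₃ * u₁ x₁ * u₂ x₂ * u₃ x₃ = f x x x := by
    rw [Finset.sum_eq_single x, Finset.sum_eq_single x, Finset.sum_eq_single x, a₁, a₂, a₃,
      mul_one, mul_one, mul_one]
    · exact fun x₃ _ hne => key x x x₃ (Or.inr (Or.inr hne))
    · exact fun hn => absurd (Finset.mem_univ _) hn
    · exact fun x₂ _ hne => Finset.sum_eq_zero fun x₃ _ => key x x₂ x₃ (Or.inr (Or.inl hne))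
    · exact fun hn => absurd (Finset.mem_univ _) hn
    · exact fun x₁ _ hne => Finset.sum_eq_zero fun x₂ _ => Finset.sum_eq_zero fun x₃ _ =>
        key x₁ x₂ x₃ (Or.inl hne)
    · exact fun hn => absurd (Finset.mem_univ _) hn
  have hzero : ∑ x₁, ∑ x₂, ∑ x₃, f x₁ x₂ x₃ * u₁ x₁ * u₂ x₂ * u₃ x₃ = 0 := by
    have s1 := low_slice g₁ h₁ u₁ u₂ u₃ z₁
    have s2 : ∑ x₁, ∑ x₂, ∑ x₃, (∑ i, g₂ i x₂ * h₂ i x₁ x₃) * u₁ x₁ * u₂ x₂ * u₃ x₃ = 0 := by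
      rw [Finset.sum_comm, ← low_slice g₂ h₂ u₂ u₁ u₃ z₂]
      refine Finset.sum_congr rfl fun y _ => Finset.sum_congr rfl fun z _ =>
        Finset.sum_congr rfl fun w _ => ?_
      ring
    have s3 : ∑ x₁, ∑ x₂, ∑ x₃, (∑ i, g₃ i x₃ * h₃ i x₁ x₂) * u₁ x₁ * u₂ x₂ * u₃ x₃ = 0 := by
      rw [← low_slice g₃ h₃ u₃ u₁ u₂ z₃]
      conv_rhs => rw [Finset.sum_comm]
      refine Finset.sum_congr rfl fun y _ => ?_
      rw [Finset.sum_comm]
      refine Finset.sum_congr rfl fun z _ => Finset.sum_congr rfl fun w _ => ?_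
      ring
    have e : ∑ x₁, ∑ x₂, ∑ x₃, f x₁ x₂ x₃ * u₁ x₁ * u₂ x₂ * u₃ x₃ =
        (∑ x₁, ∑ x₂, ∑ x₃, (∑ i, g₁ i x₁ * h₁ i x₂ x₃) * u₁ x₁ * u₂ x₂ * u₃ x₃) +
        (∑ x₁, ∑ x₂, ∑ x₃, (∑ i, g₂ i x₂ * h₂ i x₁ x₃) * u₁ x₁ * u₂ x₂ * u₃ x₃) +
        ∑ x₁, ∑ x₂, ∑ x₃, (∑ i, g₃ i x₃ * h₃ i x₁ x₂) * u₁ x₁ * u₂ x₂ * u₃ x₃ := by
      simp only [← Finset.sum_add_distrib]
      refine Finset.sum_congr rfl fun y _ => Finset.sum_congr rfl fun z _ =>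
        Finset.sum_congr rfl fun w _ => ?_
      rw [hfe]
      ring
    rw [e, s1, s2, s3, add_zero, add_zero]
  exact hf x (hsum.symm.trans hzero)

theorem up : S_up := by
  intro K _ X _ _ f r hr
  refine ⟨Fintype.card X, 0, 0, fun i x => if (Fintype.equivFin X).symm i = x then 1 else 0,
    fun i y z => f ((Fintype.equivFin X).symm i) y z, fun i _ => 0, fun i _ _ => 0,
    fun i _ => 0, fun i _ _ => 0, by omega, ?_⟩
  intro x y z
  rw [Finset.univ_eq_empty (α := Fin 0), Finset.sum_empty, add_zero, add_zero,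
    Finset.sum_eq_single (Fintype.equivFin X x)]
  · beta_reduce
    rw [Equiv.symm_apply_apply, if_pos rfl, one_mul]
  · intro i _ hi
    beta_reduce
    rw [if_neg, zero_mul]
    intro h
    apply hi
    rw [← h, Equiv.apply_symm_apply]
  · exact fun hn => absurd (Finset.mem_univ _) hn

end Pool.Agent.H311.SR
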