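import Pool.Agent.H311.SR.Defs

/-!
# G6: the support is tight (helper644)
-/

open Finset

namespace Pool.Agent.H311.SR

/-- The digits: `0, 1, ..., m - 2, 2 m`. -/
def tightA (m : ℕ) (t : ZMod m) : ℤ := if t.val = m - 1 then 2 * m else t.val

theorem tight_val_sub_one {m : ℕ} (hm : 3 ≤ m) (t : ZMod m) :
    (t - 1).val = if t.val = 0 then m - 1 else t.val - 1 := by
  obtain ⟨k, rfl⟩ : ∃ k, m = k + 1 := ⟨m - 1, by omega⟩
  by_cases h : t.val = 0
  · rw [if_pos h]
    have h0 : t = 0 := (ZMod.val_eq_zero t).1 h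
    rw [h0, zero_sub]
    exact ZMod.val_neg_one k
  · rw [if_neg h]
    have : Fact (1 < k + 1) := ⟨by omega⟩
    have h1 : (1 : ZMod (k + 1)).val = 1 := ZMod.val_one (k + 1)
    rw [ZMod.val_sub (by rw [h1]; omega), h1]

theorem tightA_inj {m : ℕ} (hm : 3 ≤ m) : Function.Injective (tightA m) := by
  have : NeZero m := ⟨by omega⟩
  intro s t h
  have hs := ZMod.val_lt s
  have ht := ZMod.val_lt t
  apply ZMod.val_injective m
  unfold tightA at h
  split_ifs at h with h1 h2 h2 <;> omega

theorem tightB_inj {m : ℕ} (hm : 3 ≤ m) :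
    Function.Injective (fun t : ZMod m => -tightA m t - tightA m (t - 1)) := by
  have : NeZero m := ⟨by omega⟩
  intro s t h
  have hs := ZMod.val_lt s
  have ht := ZMod.val_lt t
  apply ZMod.val_injective m
  simp only [tightA, tight_val_sub_one hm] at h
  split_ifs at h <;> omega

theorem tightA_bd {m : ℕ} (hm : 3 ≤ m) (t : ZMod m) : 0 ≤ tightA m t ∧ tightA m t ≤ 2 * m := by
  have : NeZero m := ⟨by omega⟩
  have ht := ZMod.val_lt t
  unfold tightA
  split_ifs <;> constructor <;> omega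

theorem tight_digits (Q : ℤ) (hQ : 0 < Q) : ∀ (n : ℕ) (v : Fin n → ℤ), (∀ i, |v i| < Q) →
    ∑ i : Fin n, Q ^ (i : ℕ) * v i = 0 → ∀ i, v i = 0 := by
  intro n
  induction n with
  | zero => exact fun v _ _ i => i.elim0
  | succ n ih =>
    intro v hv hs
    rw [Fin.sum_univ_succ] at hs
    have e : ∑ i : Fin n, Q ^ ((i.succ : Fin (n + 1)) : ℕ) * v i.succ =
        Q * ∑ i : Fin n, Q ^ (i : ℕ) * v i.succ := by
      rw [Finset.mul_sum]
      refine Finset.sum_congr rfl fun i _ => ?_
      rw [Fin.val_succ, pow_succ]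
      ring
    rw [e, Fin.val_zero, pow_zero, one_mul] at hs
    have hd : Q ∣ v 0 := ⟨-∑ i : Fin n, Q ^ (i : ℕ) * v i.succ, by linarith⟩
    have h0 : v 0 = 0 := Int.eq_zero_of_abs_lt_dvd hd (hv 0)
    rw [h0, zero_add] at hs
    have h1 := (mul_eq_zero.1 hs).resolve_left hQ.ne'
    have h2 := ih (fun i => v i.succ) (fun i => hv i.succ) h1
    intro i
    refine Fin.cases h0 (fun j => h2 j) i

theorem tight_inj {m n : ℕ} (Q : ℤ) (hQ : 0 < Q) (f : ZMod m → ℤ)
    (hf : Function.Injective f) (hb : ∀ s t, |f s - f t| < Q) :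
    Function.Injective (fun x : Fin n → ZMod m => ∑ i : Fin n, Q ^ (i : ℕ) * f (x i)) := by
  intro x y h
  have h1 : ∑ i : Fin n, Q ^ (i : ℕ) * (f (x i) - f (y i)) = 0 := by
    simp only [mul_sub, Finset.sum_sub_distrib]
    exact sub_eq_zero.2 h
  have h2 := tight_digits Q hQ n (fun i => f (x i) - f (y i)) (fun i => hb _ _) h1
  funext i
  exact hf (sub_eq_zero.1 (h2 i))

theorem tight : S_tight := by
  intro m n hm
  set Q : ℤ := 6 * m + 1 with hQ
  have hQ0 : 0 < Q := by omega
  have hA : ∀ t : ZMod m, 0 ≤ tightA m t ∧ tightA m t ≤ 2 * m := tightA_bd hm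
  refine ⟨fun x => ∑ i : Fin n, Q ^ (i : ℕ) * tightA m (x i),
    fun x => ∑ i : Fin n, Q ^ (i : ℕ) * (-tightA m (x i) - tightA m (x i - 1)),
    fun x => ∑ i : Fin n, Q ^ (i : ℕ) * tightA m (x i - 1), ?_, ?_, ?_, ?_⟩
  · refine tight_inj Q hQ0 _ (tightA_inj hm) fun s t => ?_
    have h1 := hA s
    have h2 := hA t
    rw [abs_lt]
    constructor <;> omega
  · refine tight_inj Q hQ0 (fun t => -tightA m t - tightA m (t - 1)) (tightB_inj hm)
      fun s t => ?_
    have h1 := hA s
    have h2 := hA t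
    have h3 := hA (s - 1)
    have h4 := hA (t - 1)
    rw [abs_lt]
    constructor <;> omega
  · refine tight_inj Q hQ0 (fun t => tightA m (t - 1)) (fun s t h => ?_) fun s t => ?_
    · have h1 := tightA_inj hm h
      exact sub_left_injective h1
    · have h1 := hA (s - 1)
      have h2 := hA (t - 1)
      rw [abs_lt]
      constructor <;> omega
  · intro x d hd
    simp only [← Finset.sum_add_distrib, ← mul_add]
    refine Finset.sum_eq_zero fun i _ => ?_
    rcases hd i with h | h
    · have e1 : (x + d) i = x i := by rw [Pi.add_apply, h, add_zero]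
      have e2 : (x + d + d) i = x i := by rw [Pi.add_apply, e1, h, add_zero]
      rw [e1, e2]
      ring
    · have e1 : (x + d) i = x i + 1 := by rw [Pi.add_apply, h]
      have e2 : (x + d + d) i - 1 = x i + 1 := by rw [Pi.add_apply, e1, h, add_sub_cancel_right]
      rw [e2, e1, add_sub_cancel_right]
      ring

end Pool.Agent.H311.SR
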