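import Pool.Agent.H311.SR.Defs

/-!
# G4: the weighted version of the slice rank bound
-/

set_option autoImplicit false

open Finset

namespace Pool.Agent.H311.SR

theorem wlow_span {K V : Type} [Field K] [AddCommGroup V] [Module K V] (L : V →ₗ[K] K) (S : Set V)
    (hS : ∀ v ∈ S, L v = 0) {u : V} (hu : u ∈ Submodule.span K S) : L u = 0 := by
  have h : Submodule.span K S ≤ LinearMap.ker L := Submodule.span_le.2 hS
  exact h hu

section

variable {K X : Type} [Field K] [Fintype X]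

/-- the trilinear form as a function of the first argument -/
def wlowA (f : X → X → X → K) (q r : X → K) : (X → K) →ₗ[K] K where
  toFun p := ∑ x, ∑ y, ∑ z, f x y z * p x * q y * r z
  map_add' p p' := by
    simp only [Pi.add_apply, mul_add, add_mul, sum_add_distrib]
  map_smul' c p := by
    simp only [Pi.smul_apply, smul_eq_mul, RingHom.id_apply, mul_sum]
    exact sum_congr rfl fun x _ => sum_congr rfl fun y _ => sum_congr rfl fun z _ => by ring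

/-- the trilinear form as a function of the second argument -/
def wlowB (f : X → X → X → K) (p r : X → K) : (X → K) →ₗ[K] K where
  toFun q := ∑ x, ∑ y, ∑ z, f x y z * p x * q y * r z
  map_add' q q' := by
    simp only [Pi.add_apply, mul_add, add_mul, sum_add_distrib]
  map_smul' c q := by
    simp only [Pi.smul_apply, smul_eq_mul, RingHom.id_apply, mul_sum]
    exact sum_congr rfl fun x _ => sum_congr rfl fun y _ => sum_congr rfl fun z _ => by ring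

/-- the trilinear form as a function of the third argument -/
def wlowC (f : X → X → X → K) (p q : X → K) : (X → K) →ₗ[K] K where
  toFun r := ∑ x, ∑ y, ∑ z, f x y z * p x * q y * r z
  map_add' r r' := by
    simp only [Pi.add_apply, mul_add, sum_add_distrib]
  map_smul' c r := by
    simp only [Pi.smul_apply, smul_eq_mul, RingHom.id_apply, mul_sum]
    exact sum_congr rfl fun x _ => sum_congr rfl fun y _ => sum_congr rfl fun z _ => by ring

/-- the value of the trilinear form at the triangular functions -/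
theorem wlow_val {a b c : X → ℤ} (ha : Function.Injective a) (hb : Function.Injective b)
    (hc : Function.Injective c) {f : X → X → X → K}
    (hf : ∀ x y z, f x y z ≠ 0 → a x + b y + c z = 0) {x : X} (hx : f x x x ≠ 0)
    {u₁ u₂ u₃ : X → K} (h1 : u₁ x = 1) (h2 : u₂ x = 1) (h3 : u₃ x = 1)
    (h1' : ∀ x', a x < a x' → u₁ x' = 0) (h2' : ∀ x', b x < b x' → u₂ x' = 0)
    (h3' : ∀ x', c x < c x' → u₃ x' = 0) :
    ∑ y₁, ∑ y₂, ∑ y₃, f y₁ y₂ y₃ * u₁ y₁ * u₂ y₂ * u₃ y₃ = f x x x := by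
  classical
  have key : ∀ y₁ y₂ y₃, f y₁ y₂ y₃ * u₁ y₁ * u₂ y₂ * u₃ y₃ ≠ 0 →
      y₁ = x ∧ y₂ = x ∧ y₃ = x := by
    intro y₁ y₂ y₃ h
    have e3 : u₃ y₃ ≠ 0 := right_ne_zero_of_mul h
    have h' := left_ne_zero_of_mul h
    have e2 : u₂ y₂ ≠ 0 := right_ne_zero_of_mul h'
    have h'' := left_ne_zero_of_mul h'
    have e1 : u₁ y₁ ≠ 0 := right_ne_zero_of_mul h''
    have e0 := hf _ _ _ (left_ne_zero_of_mul h'')
    have e := hf _ _ _ hx
    have l1 : a y₁ ≤ a x := not_lt.1 fun hl => e1 (h1' _ hl)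
    have l2 : b y₂ ≤ b x := not_lt.1 fun hl => e2 (h2' _ hl)
    have l3 : c y₃ ≤ c x := not_lt.1 fun hl => e3 (h3' _ hl)
    exact ⟨ha (by omega), hb (by omega), hc (by omega)⟩
  rw [sum_eq_single x, sum_eq_single x, sum_eq_single x, h1, h2, h3, mul_one, mul_one, mul_one]
  · intro y₃ _ hy
    by_contra h
    exact hy (key _ _ _ h).2.2
  · intro h
    exact absurd (mem_univ x) h
  · intro y₂ _ hy
    refine sum_eq_zero fun y₃ _ => ?_
    by_contra h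
    exact hy (key _ _ _ h).2.1
  · intro h
    exact absurd (mem_univ x) h
  · intro y₁ _ hy
    refine sum_eq_zero fun y₂ _ => sum_eq_zero fun y₃ _ => ?_
    by_contra h
    exact hy (key _ _ _ h).1
  · intro h
    exact absurd (mem_univ x) h

end

/-- G4 -/
theorem wlow (h : S_bru) : S_wlow := by
  intro K _ X _ _ a b c ha hb hc f hx hf g₁ g₂ g₃ hg₁ hg₂ hg₃ w₁ w₂ w₃ hw
  obtain ⟨σ₁, H₁⟩ := h K X a ha g₁ hg₁ w₁
  obtain ⟨σ₂, H₂⟩ := h K X b hb g₂ hg₂ w₂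
  obtain ⟨σ₃, H₃⟩ := h K X c hc g₃ hg₃ w₃
  have key : ∀ x, 1 ≤ w₁ (σ₁ x) + w₂ (σ₂ x) + w₃ (σ₃ x) := by
    intro x
    by_contra hlt
    rw [not_le] at hlt
    obtain ⟨u₁, s1, h1, h1'⟩ := H₁ x
    obtain ⟨u₂, s2, h2, h2'⟩ := H₂ x
    obtain ⟨u₃, s3, h3, h3'⟩ := H₃ x
    have t0 : ∀ s₁ s₂ s₃, w₁ s₁ ≤ w₁ (σ₁ x) → w₂ s₂ ≤ w₂ (σ₂ x) → w₃ s₃ ≤ w₃ (σ₃ x) →
        wlowA f (g₂ s₂) (g₃ s₃) (g₁ s₁) = 0 := by
      intro s₁ s₂ s₃ l1 l2 l3
      exact hw s₁ s₂ s₃ (by linarith)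
    have t1 : ∀ s₂ s₃, w₂ s₂ ≤ w₂ (σ₂ x) → w₃ s₃ ≤ w₃ (σ₃ x) →
        wlowB f u₁ (g₃ s₃) (g₂ s₂) = 0 := by
      intro s₂ s₃ l2 l3
      refine wlow_span (wlowA f (g₂ s₂) (g₃ s₃)) _ ?_ s1
      rintro _ ⟨s₁, l1, rfl⟩
      exact t0 s₁ s₂ s₃ l1 l2 l3
    have t2 : ∀ s₃, w₃ s₃ ≤ w₃ (σ₃ x) → wlowC f u₁ u₂ (g₃ s₃) = 0 := by
      intro s₃ l3
      refine wlow_span (wlowB f u₁ (g₃ s₃)) _ ?_ s2
      rintro _ ⟨s₂, l2, rfl⟩
      exact t1 s₂ s₃ l2 l3
    have t3 : wlowC f u₁ u₂ u₃ = 0 := by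
      refine wlow_span (wlowC f u₁ u₂) _ ?_ s3
      rintro _ ⟨s₃, l3, rfl⟩
      exact t2 s₃ l3
    have hv := wlow_val ha hb hc hf (hx x) h1 h2 h3 h1' h2' h3'
    exact hx x (hv.symm.trans t3)
  have hs : ∑ _x : X, (1 : ℝ) ≤ ∑ x, (w₁ (σ₁ x) + w₂ (σ₂ x) + w₃ (σ₃ x)) :=
    sum_le_sum fun x _ => key x
  rw [sum_add_distrib, sum_add_distrib, Equiv.sum_comp σ₁ w₁, Equiv.sum_comp σ₂ w₂,
    Equiv.sum_comp σ₃ w₃] at hs
  simpa using hs

end Pool.Agent.H311.SR
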