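import Pool.Agent.H311.SR.Final
import Pool.Agent.H311.SR.Ech
import Pool.Agent.H311.SR.Bru
import Pool.Agent.H311.SR.Low
import Pool.Agent.H311.SR.WLow
import Pool.Agent.H311.SR.Tight

open Finset

namespace Pool.Agent.H311.SR

theorem final (m n : ℕ) (hm : 3 ≤ m) (K : Type) [Field K] (A : Finset (Fin n → ZMod m))
    (f : A → A → A → K) (hdiag : ∀ x, f x x x ≠ 0)
    (hsupp : ∀ x y z : A, f x y z ≠ 0 → ∃ d : Fin n → ZMod m, (∀ i, d i = 0 ∨ d i = 1) ∧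
      (y : Fin n → ZMod m) = x + d ∧ (z : Fin n → ZMod m) = x + d + d) :
    (∀ r : ℕ, SliceRankLE f r ↔ A.card ≤ r) ∧
    ∀ (g₁ g₂ g₃ : A → A → K), LinearIndependent K g₁ → LinearIndependent K g₂ →
      LinearIndependent K g₃ → ∀ (w₁ w₂ w₃ : A → ℝ),
      (∀ s₁ s₂ s₃, w₁ s₁ + w₂ s₂ + w₃ s₃ < 1 →
        ∑ x, ∑ y, ∑ z, f x y z * g₁ s₁ x * g₂ s₂ y * g₃ s₃ z = 0) →
      (A.card : ℝ) ≤ ∑ s, w₁ s + ∑ s, w₂ s + ∑ s, w₃ s :=
  final_of (low ech) (wlow bru) up tight m n hm K A f hdiag hsupp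

end Pool.Agent.H311.SR
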