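import Mathlib

/-!
# The slice rank method and progressions with differences in `{0,1}^n`

Statements (as Props) of the steps; the doc comments contain the proofs.
-/

open Finset

namespace Pool.Agent.H311.SR

/-- `f` is a sum of at most `r` slices: products of a function of one of the variables and a
function of the other two -/
def SliceRankLE {X K : Type} [Field K] (f : X → X → X → K) (r : ℕ) : Prop :=
  ∃ (r₁ r₂ r₃ : ℕ) (g₁ : Fin r₁ → X → K) (h₁ : Fin r₁ → X → X → K)
    (g₂ : Fin r₂ → X → K) (h₂ : Fin r₂ → X → X → K)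
    (g₃ : Fin r₃ → X → K) (h₃ : Fin r₃ → X → X → K),
    r₁ + r₂ + r₃ ≤ r ∧ ∀ x y z, f x y z =
      ∑ i, g₁ i x * h₁ i y z + ∑ i, g₂ i y * h₂ i x z + ∑ i, g₃ i z * h₃ i x y

/-- G1 (echelon form). `X` finite, ordered by the injective map `a`, and `r` functions `g i` on `X`.
Call `x` bad if the vector `(g i x)_i ∈ K^r` is not in the span of the vectors `(g i x')_i` with
`a x' < a x`. The vectors of the bad points are linearly independent, so there are at most `r` bad
points. If `x` is not bad, then `(g i x)_i = - ∑_{a x' < a x} u x' (g i x')_i` for some `u`; put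
`u x = 1` and `u = 0` at the other points. `S` is the set of the points which are not bad. -/
def S_ech : Prop := ∀ (K : Type) [Field K] (X : Type) [Fintype X] [DecidableEq X] (a : X → ℤ),
  Function.Injective a → ∀ (r : ℕ) (g : Fin r → X → K),
  ∃ S : Finset X, Fintype.card X ≤ S.card + r ∧ ∀ x ∈ S, ∃ u : X → K,
    u x = 1 ∧ (∀ x', a x < a x' → u x' = 0) ∧ ∀ i, ∑ x', u x' * g i x' = 0

/-- G2 (Bruhat decomposition). `g s`, `s ∈ X`, a basis of `K^X` and real weights `w s`. There is a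
permutation `σ` of `X` such that for every `x` there is `u` in the span of the `g s` with
`w s ≤ w (σ x)` with `u x = 1` and `u x' = 0` for `a x' > a x`.
Proof: number the indices `s_1, ..., s_N` so that `w` is nondecreasing, `U_j = span (g s_1..g s_j)`,
let `P_j` be the set of the leading points (the point `x` with largest `a x` where `u x ≠ 0`) of the
nonzero `u ∈ U_j`; `|P_j| = dim U_j = j` and `P_{j-1} ⊆ P_j`; put `σ x = s_j` if
`x ∈ P_j \ P_{j-1}`. (Or by induction on the number of elements.) -/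
def S_bru : Prop := ∀ (K : Type) [Field K] (X : Type) [Fintype X] [DecidableEq X] (a : X → ℤ),
  Function.Injective a → ∀ (g : X → X → K), LinearIndependent K g → ∀ w : X → ℝ,
  ∃ σ : Equiv.Perm X, ∀ x : X, ∃ u ∈ Submodule.span K (g '' {s | w s ≤ w (σ x)}),
    u x = 1 ∧ ∀ x', a x < a x' → u x' = 0

/-- G3 slice rank, from G1. If `f` is a sum of `r₁ + r₂ + r₃ < |X|` slices, apply G1 to
`(a, g₁)`, `(b, g₂)`, `(c, g₃)`: the three sets `S` have a common point `x`
(`|S₁ ∩ S₂ ∩ S₃| ≥ |X| - r₁ - r₂ - r₃ > 0`); with the functions `u₁, u₂, u₃` at `x` the sum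
`∑ f x₁ x₂ x₃ u₁ x₁ u₂ x₂ u₃ x₃` is `0` by the slices, and it is `f x x x ≠ 0`, because a nonzero
term has `a x₁ ≤ a x`, `b x₂ ≤ b x`, `c x₃ ≤ c x` and
`a x₁ + b x₂ + c x₃ = 0 = a x + b x + c x`, so `x₁ = x₂ = x₃ = x`. -/
def S_low : Prop := ∀ (K : Type) [Field K] (X : Type) [Fintype X] [DecidableEq X]
  (a b c : X → ℤ), Function.Injective a → Function.Injective b → Function.Injective c →
  ∀ f : X → X → X → K, (∀ x, f x x x ≠ 0) → (∀ x y z, f x y z ≠ 0 → a x + b y + c z = 0) →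
  ∀ r : ℕ, SliceRankLE f r → Fintype.card X ≤ r

/-- G4 the weighted version, from G2. With `σ₁, σ₂, σ₃` and `u₁, u₂, u₃` (at `x`) from G2 the sum
`∑ f x₁ x₂ x₃ u₁ x₁ u₂ x₂ u₃ x₃ = f x x x ≠ 0` (as in G3); expand `u_i` in the `g_i s`: some
coefficient with `w_i s_i ≤ w_i (σ_i x)` is nonzero, so `1 ≤ ∑_i w_i s_i ≤ ∑_i w_i (σ_i x)`. Sum
over `x`. -/
def S_wlow : Prop := ∀ (K : Type) [Field K] (X : Type) [Fintype X] [DecidableEq X]
  (a b c : X → ℤ), Function.Injective a → Function.Injective b → Function.Injective c →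
  ∀ f : X → X → X → K, (∀ x, f x x x ≠ 0) → (∀ x y z, f x y z ≠ 0 → a x + b y + c z = 0) →
  ∀ (g₁ g₂ g₃ : X → X → K), LinearIndependent K g₁ → LinearIndependent K g₂ →
    LinearIndependent K g₃ → ∀ (w₁ w₂ w₃ : X → ℝ),
    (∀ s₁ s₂ s₃, w₁ s₁ + w₂ s₂ + w₃ s₃ < 1 →
      ∑ x, ∑ y, ∑ z, f x y z * g₁ s₁ x * g₂ s₂ y * g₃ s₃ z = 0) →
    (Fintype.card X : ℝ) ≤ ∑ s, w₁ s + ∑ s, w₂ s + ∑ s, w₃ s

/-- G5 trivial upper bound: `f x y z = ∑_s [x = s] f s y z`. -/
def S_up : Prop := ∀ (K : Type) [Field K] (X : Type) [Fintype X] [DecidableEq X]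
  (f : X → X → X → K) (r : ℕ), Fintype.card X ≤ r → SliceRankLE f r

/-- G6 the support is tight. One coordinate: for `t ∈ {0, ..., m-1}` put `A t = 4^t`,
`α t = A t`, `γ t = A (t - 1)`, `β t = - A t - A (t - 1)` (indices modulo `m`); then
`α t + β t + γ t = 0`, `α t + β (t+1) + γ (t+2) = A t - A (t+1) - A t + A (t+1) = 0`; `α`, `γ` are
injective, and `β` is as `4^t + 4^(t-1)` (`t ≥ 1`) and `1 + 4^(m-1)` are distinct for `m ≥ 3`.
In `n` coordinates `a x = ∑ i, Q^i α (x i)` etc. with `Q = 4^(m+1)`, larger than all the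
differences of values of `α`, `β`, `γ`, plus one. -/
def S_tight : Prop := ∀ m n : ℕ, 3 ≤ m → ∃ a b c : (Fin n → ZMod m) → ℤ,
  Function.Injective a ∧ Function.Injective b ∧ Function.Injective c ∧
  ∀ x d : Fin n → ZMod m, (∀ i, d i = 0 ∨ d i = 1) → a x + b (x + d) + c (x + d + d) = 0

end Pool.Agent.H311.SR
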