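import Pool.Agent.H311.SR.Defs

open Finset

namespace Pool.Agent.H311.SR

theorem final_of (hlow : S_low) (hwlow : S_wlow) (hup : S_up) (ht : S_tight)
    (m n : ℕ) (hm : 3 ≤ m) (K : Type) [Field K] (A : Finset (Fin n → ZMod m))
    (f : A → A → A → K) (hdiag : ∀ x, f x x x ≠ 0)
    (hsupp : ∀ x y z : A, f x y z ≠ 0 → ∃ d : Fin n → ZMod m, (∀ i, d i = 0 ∨ d i = 1) ∧
      (y : Fin n → ZMod m) = x + d ∧ (z : Fin n → ZMod m) = x + d + d) :
    (∀ r : ℕ, SliceRankLE f r ↔ A.card ≤ r) ∧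
    ∀ (g₁ g₂ g₃ : A → A → K), LinearIndependent K g₁ → LinearIndependent K g₂ →
      LinearIndependent K g₃ → ∀ (w₁ w₂ w₃ : A → ℝ),
      (∀ s₁ s₂ s₃, w₁ s₁ + w₂ s₂ + w₃ s₃ < 1 →
        ∑ x, ∑ y, ∑ z, f x y z * g₁ s₁ x * g₂ s₂ y * g₃ s₃ z = 0) →
      (A.card : ℝ) ≤ ∑ s, w₁ s + ∑ s, w₂ s + ∑ s, w₃ s := by
  classical
  obtain ⟨a, b, c, ha, hb, hc, habc⟩ := ht m n hm
  have hs : ∀ x y z : A, f x y z ≠ 0 →
      a (x : Fin n → ZMod m) + b (y : Fin n → ZMod m) + c (z : Fin n → ZMod m) = 0 := by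
    intro x y z h
    obtain ⟨d, hd, hy, hz⟩ := hsupp x y z h
    rw [hy, hz]
    exact habc x d hd
  have hcard : Fintype.card A = A.card := Fintype.card_coe A
  refine ⟨fun r => ⟨fun h => ?_, fun h => ?_⟩, ?_⟩
  · rw [← hcard]
    exact hlow K A (fun x => a x) (fun x => b x) (fun x => c x)
      (ha.comp Subtype.val_injective) (hb.comp Subtype.val_injective)
      (hc.comp Subtype.val_injective) f hdiag hs r h
  · exact hup K A f r (by rw [hcard]; exact h)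
  · intro g₁ g₂ g₃ h₁ h₂ h₃ w₁ w₂ w₃ hw
    rw [← hcard]
    exact hwlow K A (fun x => a x) (fun x => b x) (fun x => c x)
      (ha.comp Subtype.val_injective) (hb.comp Subtype.val_injective)
      (hc.comp Subtype.val_injective) f hdiag hs g₁ g₂ g₃ h₁ h₂ h₃ w₁ w₂ w₃ hw

end Pool.Agent.H311.SR
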